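import Pool.Agent.H49.WB.PiC

set_option autoImplicit false

namespace Pool.Agent.Results.MP_df86d1_al.FinitelyManySimpleGroups

open Pool.Agent.H50.PSV Pool.Agent.H49.WB

/-- A commutative simple group which is finite has prime order. -/
theorem prime_card {S : Type} [Group S] [Finite S] (hs : IsSimpleGroup S)
    (h : ∀ a b : S, a * b = b * a) : (Nat.card S).Prime := by
  let _ : CommGroup S := { (inferInstance : Group S) with mul_comm := h }
  exact IsSimpleGroup.prime_card

theorem only_or_cop (ρ : Finset ℕ) (hρ : ∀ r ∈ ρ, r.Prime) {k : ℕ} (hk : k.Prime) :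
    POnly ρ k ∨ PCop ρ k := by
  by_cases h : k ∈ ρ
  · left
    intro r hr hrk
    rw [(Nat.prime_dvd_prime_iff_eq hr hk).mp hrk]
    exact h
  · right
    intro r hr
    exact (Nat.coprime_primes (hρ r hr) hk).mpr (fun h1 => h (h1 ▸ hr))

/-- Let `C` be a pseudovariety of finite groups (closed under extensions or not) and `ρ` a finite
set of primes such that all non-commutative simple groups in `C` are `ρ`-groups, or all of them
are `ρ'`-groups; let `C` contain the groups of order `p` and `q`, where `p ∈ ρ` and `q ≠ p` are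
primes. Then for every `n ≥ |ρ| + 2` the free pro-`C` group of rank `n` is the free pro-`C`
product of two pro-`C` groups, neither of which is a free pro-`C` group. If all groups in `C` are
`ρ`-groups, this holds for every `n ≥ |ρ| + 1`. -/
theorem result :
    ∀ C : ∀ (A : Type) [Group A], Prop, IsPseudovariety C →
    ∀ (ρ : Finset ℕ) (p q : ℕ), (∀ r ∈ ρ, r.Prime) → p ∈ ρ → q.Prime → q ≠ p →
      C (Multiplicative (ZMod p)) → C (Multiplicative (ZMod q)) →
      ((∀ (S : Type) [Group S], C S → IsSimpleGroup S → (∃ a b : S, a * b ≠ b * a) →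
          POnly ρ (Nat.card S)) ∨
        (∀ (S : Type) [Group S], C S → IsSimpleGroup S → (∃ a b : S, a * b ≠ b * a) →
          PCop ρ (Nat.card S))) →
      ∀ n : ℕ, (ρ.card + 2 ≤ n ∨
        ((∀ (A : Type) [Group A], C A → POnly ρ (Nat.card A)) ∧ ρ.card + 1 ≤ n)) →
        NonFreeDecomp C n := by
  intro C hC ρ p q hρ hp hq hqp hCp hCq hns n hn
  rcases hn with hn | ⟨hall, hn⟩
  swap
  · exact nonfree_finite hC ρ hρ hall hp hq hqp hCp hCq n hn
  have hs : ∀ (S : Type) [Group S], C S → IsSimpleGroup S →
      POnly ρ (Nat.card S) ∨ PCop ρ (Nat.card S) := by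
    intro S _ hS hsim
    have := hC.fin S hS
    by_cases hc : ∀ a b : S, a * b = b * a
    · exact only_or_cop ρ hρ (prime_card hsim hc)
    · push Not at hc
      rcases hns with h | h
      · exact Or.inl (h S hS hsim hc)
      · exact Or.inr (h S hS hsim hc)
  refine nonfree_cells hC ρ hρ hs ?_ hp hq hqp hCp hCq n hn
  rcases hns with h | h
  · right
    intro S _ hS hsim hcop
    by_contra hc
    push Not at hc
    have := hC.fin S hS
    have h1 := h S hS hsim hc
    obtain ⟨a, b, hab⟩ := hc
    have h2 : Nat.card S ≠ 1 := by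
      intro h3
      have h4 := (Nat.card_eq_one_iff_unique.mp h3).1
      exact hab (Subsingleton.elim _ _)
    obtain ⟨r, hr, hrd⟩ := Nat.exists_prime_and_dvd h2
    exact ((hr.coprime_iff_not_dvd).mp (hcop r (h1 r hr hrd))) hrd
  · left
    intro S _ hS hsim honly
    by_contra hc
    push Not at hc
    have := hC.fin S hS
    have h1 := h S hS hsim hc
    obtain ⟨a, b, hab⟩ := hc
    have h2 : Nat.card S ≠ 1 := by
      intro h3
      have h4 := (Nat.card_eq_one_iff_unique.mp h3).1
      exact hab (Subsingleton.elim _ _)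
    obtain ⟨r, hr, hrd⟩ := Nat.exists_prime_and_dvd h2
    exact ((hr.coprime_iff_not_dvd).mp (h1 r (honly r hr hrd))) hrd

/-- If the orders of the non-commutative simple groups in `C` are bounded, then in all large ranks
there are free factors which are not free. -/
theorem bounded (C : ∀ (A : Type) [Group A], Prop) (hC : IsPseudovariety C)
    (B : ℕ) (hB : ∀ (S : Type) [Group S], C S → IsSimpleGroup S →
      (∃ a b : S, a * b ≠ b * a) → Nat.card S ≤ B)
    {p q : ℕ} (hp : p.Prime) (hq : q.Prime) (hqp : q ≠ p)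
    (hCp : C (Multiplicative (ZMod p))) (hCq : C (Multiplicative (ZMod q))) :
    ∃ N : ℕ, ∀ n : ℕ, N ≤ n → NonFreeDecomp C n ∧ ¬ FreeFactorsFree C n := by
  classical
  have hp1 : p ∈ insert p ((Finset.range (B + 1)).filter Nat.Prime) := Finset.mem_insert_self _ _
  refine ⟨(insert p ((Finset.range (B + 1)).filter Nat.Prime)).card + 2, fun n hn => ?_⟩
  have h := result C hC (insert p ((Finset.range (B + 1)).filter Nat.Prime)) p q ?_ hp1 hq hqp
    hCp hCq ?_ n (Or.inl hn)
  · exact ⟨h, not_freeFactors h⟩
  · intro r hr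
    rcases Finset.mem_insert.mp hr with h | h
    · rw [h]; exact hp
    · exact (Finset.mem_filter.mp h).2
  · left
    intro S _ hS hsim hc r hr hrd
    have := hC.fin S hS
    apply Finset.mem_insert_of_mem
    rw [Finset.mem_filter, Finset.mem_range]
    exact ⟨by
      have h1 := hB S hS hsim hc
      have h2 := Nat.le_of_dvd Nat.card_pos hrd
      omega, hr⟩

/-- The class of all finite `ρ`-groups, for a finite set `ρ` of at least two primes: it is closed
under subgroups, images, products and extensions, and the free pro-`ρ` group of rank `n` has free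
factors which are not free, for every `n ≥ |ρ| + 1`. -/
theorem pi_groups (ρ : Finset ℕ) (hρ : ∀ r ∈ ρ, r.Prime) (h2 : 2 ≤ ρ.card) (n : ℕ)
    (hn : ρ.card + 1 ≤ n) : IsPseudovariety (FinPi ρ) ∧ IsExtClosed (FinPi ρ) ∧
      NonFreeDecomp (FinPi ρ) n ∧ ¬ FreeFactorsFree (FinPi ρ) n :=
  ⟨pseudovariety_pi ρ, extClosed_pi ρ, nonfree_pi ρ hρ h2 n hn,
    not_freeFactors (nonfree_pi ρ hρ h2 n hn)⟩

end Pool.Agent.Results.MP_df86d1_al.FinitelyManySimpleGroups
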