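import Pool.Agent.H50.PSV.ExtC

set_option autoImplicit false

namespace Pool.Agent.Results.MP_df86d1_al.ProPSolvable

open Pool.Agent.H50.PSV

/-- Let `p` be a prime and `C` an extension-closed pseudovariety of finite `p`-solvable groups
which contains the groups of order `p` and of order `q` for some prime `q ≠ p` (for example the
class of all finite solvable groups, or of all finite `p`-solvable groups). For pro-`C` groups the
free factors of a free pro-`C` group of rank `n` are free if `n ≤ 2`; and for every `n ≥ 3` the free
pro-`C` group of rank `n` is a free pro-`C` product of two pro-`C` groups, neither of which is free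
pro-`C`. -/
theorem result :
    ∀ p : ℕ, p.Prime → ∀ C : ∀ (A : Type) [Group A], Prop,
      IsPseudovariety C → IsExtClosed C → (∀ (A : Type) [Group A], C A → IsPSolvable p A) →
      C (Multiplicative (ZMod p)) →
      (∃ q : ℕ, q.Prime ∧ q ≠ p ∧ C (Multiplicative (ZMod q))) →
      ∀ n : ℕ, (n ≤ 2 → FreeFactorsFree C n) ∧ (3 ≤ n → NonFreeDecomp C n) := by
  intro p hp C hC hE hps hCp hCq n
  exact ⟨fun hn => freeFactors_le_two hC hE n hn, fun hn => nonfree hp hC hps hCp hCq n hn⟩

/-- The case of prosolvable groups. -/
theorem solvable (n : ℕ) : FreeFactorsFree FinSolvable n ↔ n ≤ 2 := iff_solvable n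

/-- The case of pro-(`p`-solvable) groups. -/
theorem psolvable (p : ℕ) (hp : p.Prime) (n : ℕ) :
    FreeFactorsFree (FinPSolvable p) n ↔ n ≤ 2 := iff_psolvable hp n

end Pool.Agent.Results.MP_df86d1_al.ProPSolvable
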