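import Pool.Agent.H21.Prof.Setup

set_option autoImplicit false

namespace Pool.Agent.Results.MP_df86d1_al.ProcyclicAbelianization

/-- Let `G` and `H` be profinite groups whose free profinite product `P` is a free profinite
group of rank `n`. Suppose that for every prime `q` there are at most `q` continuous homomorphisms
from `G` to the cyclic group of order `q` (that is, the abelianization of `G` is procyclic).
Then `G` and `H` are free profinite groups, of ranks `a` and `b` with `a + b = n`. -/
theorem result :
    ∀ (G : Type) [Group G] [TopologicalSpace G] [IsTopologicalGroup G] [CompactSpace G]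
      [T2Space G] [TotallyDisconnectedSpace G]
      (H : Type) [Group H] [TopologicalSpace H] [IsTopologicalGroup H] [CompactSpace H]
      [T2Space H] [TotallyDisconnectedSpace H]
      (P : Type) [Group P] [TopologicalSpace P] [IsTopologicalGroup P] [CompactSpace P]
      [T2Space P] [TotallyDisconnectedSpace P]
      (iG : ContinuousMonoidHom G P) (iH : ContinuousMonoidHom H P),
      (∀ (K : Type) [Group K] [TopologicalSpace K] [IsTopologicalGroup K] [CompactSpace K]
          [T2Space K] [TotallyDisconnectedSpace K]
          (f : ContinuousMonoidHom G K) (g : ContinuousMonoidHom H K),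
          ∃! φ : ContinuousMonoidHom P K, (∀ x, φ (iG x) = f x) ∧ (∀ y, φ (iH y) = g y)) →
      (∀ q : ℕ, q.Prime →
        Nat.card {f : G →* Multiplicative (ZMod q) // IsOpen (f.ker : Set G)} ≤ q) →
      ∀ n : ℕ,
      (∃ ι : Fin n → P,
        ∀ (K : Type) [Group K] [TopologicalSpace K] [IsTopologicalGroup K] [CompactSpace K]
          [T2Space K] [TotallyDisconnectedSpace K] (f : Fin n → K),
          ∃! φ : ContinuousMonoidHom P K, ∀ i, φ (ι i) = f i) →
      ∃ a b : ℕ, a + b = n ∧
        (∃ ι : Fin a → G,
          ∀ (K : Type) [Group K] [TopologicalSpace K] [IsTopologicalGroup K] [CompactSpace K]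
            [T2Space K] [TotallyDisconnectedSpace K] (f : Fin a → K),
            ∃! φ : ContinuousMonoidHom G K, ∀ i, φ (ι i) = f i) ∧
        (∃ ι : Fin b → H,
          ∀ (K : Type) [Group K] [TopologicalSpace K] [IsTopologicalGroup K] [CompactSpace K]
            [T2Space K] [TotallyDisconnectedSpace K] (f : Fin b → K),
            ∃! φ : ContinuousMonoidHom H K, ∀ i, φ (ι i) = f i) := by
  intro G _ _ _ _ _ _ H _ _ _ _ _ _ P _ _ _ _ _ _ iG iH hP hq n hfree
  obtain ⟨ι, hι⟩ := hfree
  obtain ⟨L⟩ := Pool.Agent.H21.Prof.exists_link iG iH hP n ι hι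
  obtain ⟨a, b, hab, ha, hb⟩ := Pool.Agent.H21.Prof.free_of_procyclic L hq
  exact ⟨a, b, hab, ha, hb⟩

end Pool.Agent.Results.MP_df86d1_al.ProcyclicAbelianization
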